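import Pool.Agent.H30.DiaC

set_option autoImplicit false

namespace Pool.Agent.Results.MP_b9a716_gt.Diamond

open Pool.Agent.H30.Dia Pool.Agent.Lead.Gro

/-- Under the diamond principle some hereditarily Grothendieck Tychonoff space is not separable. -/
theorem result (h : Diamond) : ∃ (X : Type) (_ : TopologicalSpace X),
    T35Space X ∧ (∀ Y : Set X, Groth Y) ∧ ¬ TopologicalSpace.SeparableSpace X := by
  obtain ⟨t, ht⟩ := exists_tr h False
  exact ⟨Sp t, inferInstance, inferInstance, ht.groth, not_sep t⟩

end Pool.Agent.Results.MP_b9a716_gt.Diamond
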